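import Pool.Agent.H41FR2.Frame
import Pool.Agent.H2CB.CB

/-!
# Exchanges of at most two elements between common bases of two vector configurations
-/

set_option autoImplicit false

namespace Pool.Agent.H41FR2

open Finset

variable {E : Type*} [Fintype E] [DecidableEq E] {K : Type*} [Field K] {k : ℕ}

theorem finrank_span_of_indep (v : E → Fin k → K) {A : Finset E}
    (h : LinearIndepOn K v (A : Set E)) :
    Module.finrank K (Submodule.span K (v '' (A : Set E))) = A.card := by
  have h1 : LinearIndependent K (fun x : (A : Set E) => v x) := h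
  have h2 := finrank_span_eq_card h1
  rw [Set.image_eq_range, h2]
  simp

theorem finrank_span_le (v : E → Fin k → K) (A : Finset E) :
    Module.finrank K (Submodule.span K (v '' (A : Set E))) ≤ A.card := by
  classical
  have h1 := finrank_span_finset_le_card (R := K) (A.image v)
  rw [coe_image] at h1
  exact h1.trans card_image_le

theorem indep_card_le (v : E → Fin k → K) {A : Finset E} (h : LinearIndepOn K v (A : Set E)) :
    A.card ≤ k := by
  rw [← finrank_span_of_indep v h]
  exact (Submodule.finrank_le _).trans (by simp)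

/-- An independent set with more elements than `G` leaves the span of `G`. -/
theorem exists_notMem_span (v : E → Fin k → K) {A G : Finset E} (hG : G.card < A.card)
    (h : LinearIndepOn K v (A : Set E)) : ∃ e ∈ A, v e ∉ Submodule.span K (v '' (G : Set E)) := by
  by_contra hc
  push Not at hc
  have h1 : Submodule.span K (v '' (A : Set E)) ≤ Submodule.span K (v '' (G : Set E)) := by
    rw [Submodule.span_le]
    rintro _ ⟨e, he, rfl⟩
    exact hc e he
  have h2 := Submodule.finrank_mono h1
  rw [finrank_span_of_indep v h] at h2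
  have h3 := finrank_span_le v G
  omega

theorem exch (v : E → Fin k → K) {A A' : Finset E} (hA : A.card = k)
    (hvA : LinearIndepOn K v (A : Set E)) (hvA' : LinearIndepOn K v (A' : Set E)) {d : E}
    (hd : d ∈ A') (hdA : d ∉ A) :
    ∃ a ∈ A, a ∉ A' ∧ LinearIndepOn K v ((insert d (A.erase a) : Finset E) : Set E) := by
  classical
  obtain ⟨b, hbt, hsb, hsp, hb⟩ := exists_linearIndepOn_extension (K := K) (v := v)
    (s := ((insert d (A ∩ A') : Finset E) : Set E)) (t := ((insert d A : Finset E) : Set E))
    (hvA'.mono (by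
      intro x hx
      simp only [coe_insert, coe_inter, Set.mem_insert_iff, Set.mem_inter_iff, mem_coe] at hx
      rcases hx with rfl | hx
      · exact hd
      · exact hx.2))
    (by
      intro x hx
      simp only [coe_insert, coe_inter, Set.mem_insert_iff, Set.mem_inter_iff, mem_coe] at hx ⊢
      tauto)
  let b' : Finset E := (insert d A).filter (fun x => x ∈ b)
  have hb' : (b' : Set E) = b := by
    ext x
    simp only [b', mem_coe, mem_filter]
    exact ⟨fun h => h.2, fun h => ⟨mem_coe.1 (hbt h), h⟩⟩
  have hcard : b'.card ≤ k := indep_card_le v (hb' ▸ hb)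
  have hcard' : k ≤ b'.card := by
    by_contra hc
    obtain ⟨e, he, he'⟩ := exists_notMem_span v (A := A) (G := b') (by omega) hvA
    apply he'
    rw [hb']
    exact hsp ⟨e, by simp [mem_coe.1 he], rfl⟩
  have hcA : (insert d A).card = k + 1 := by rw [card_insert_of_notMem hdA, hA]
  obtain ⟨a, ha, hab⟩ : ∃ a ∈ insert d A, a ∉ b' := by
    by_contra hc
    push Not at hc
    have := card_le_card hc
    omega
  have hda : d ∈ b := hsb (by simp)
  have had : a ≠ d := by
    rintro rfl
    exact hab (mem_filter.2 ⟨ha, hda⟩)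
  have haA : a ∈ A := (mem_insert.1 ha).resolve_left had
  refine ⟨a, haA, ?_, ?_⟩
  · intro h
    refine hab (mem_filter.2 ⟨ha, hsb ?_⟩)
    simp only [coe_insert, coe_inter, Set.mem_insert_iff, Set.mem_inter_iff, mem_coe]
    exact Or.inr ⟨haA, h⟩
  · have h1 : b' ⊆ insert d (A.erase a) := by
      intro x hx
      have h2 : x ≠ a := fun h => hab (h ▸ hx)
      rcases mem_insert.1 (mem_filter.1 hx).1 with h3 | h3
      · exact mem_insert.2 (Or.inl h3)
      · exact mem_insert.2 (Or.inr (mem_erase.2 ⟨h2, h3⟩))
    have h2 : (insert d (A.erase a)).card = k := by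
      rw [card_insert_of_notMem (fun h => hdA (mem_of_mem_erase h)), card_erase_add_one haA, hA]
    have h3 : b' = insert d (A.erase a) := eq_of_subset_of_card_le h1 (by omega)
    rw [← h3, hb']
    exact hb

/-- `A` is a common basis. -/
def CB (v w : E → Fin k → K) (A : Finset E) : Prop :=
  A.card = k ∧ LinearIndepOn K v (A : Set E) ∧ LinearIndepOn K w (A : Set E)

theorem cut (v w : E → Fin k → K) (C : Finset E) (R : Finset E → Finset E → Prop)
    (hR : ∀ A B, C ⊆ A → C ⊆ B → CB v w A → CB v w B → k ≤ (A ∩ B).card + 2 → R A B) :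
    (∀ A A', C ⊆ A → C ⊆ A' → CB v w A → CB v w A' → Relation.ReflTransGen R A A') ∨
      ∃ Z : Finset E, Disjoint Z C ∧ (∀ A, C ⊆ A → A ⊆ C ∪ Z → ¬ CB v w A) ∧
        ∀ A, C ⊆ A → Disjoint A Z → ¬ CB v w A := by
  classical
  by_cases hall : ∀ A A', C ⊆ A → C ⊆ A' → CB v w A → CB v w A' → Relation.ReflTransGen R A A'
  · exact Or.inl hall
  right
  push Not at hall
  obtain ⟨A0, A1, i1, i2, i3, i4, i5⟩ := hall
  let S : Finset (Finset E × Finset E) := univ.filter fun p =>
    C ⊆ p.1 ∧ C ⊆ p.2 ∧ CB v w p.1 ∧ CB v w p.2 ∧ ¬ Relation.ReflTransGen R p.1 p.2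
  have hS : S.Nonempty := ⟨(A0, A1), by
    simp only [S, mem_filter, mem_univ, true_and]
    exact ⟨i1, i2, i3, i4, i5⟩⟩
  obtain ⟨⟨A, A'⟩, hp, hmax⟩ := exists_max_image S (fun p => (p.1 ∩ p.2).card) hS
  simp only [S, mem_filter, mem_univ, true_and] at hp hmax
  obtain ⟨hCA, hCA', hA, hA', hne⟩ := hp
  have hfar : (A ∩ A').card + 2 < k := by
    by_contra hc
    exact hne (Relation.ReflTransGen.single (hR A A' hCA hCA' hA hA' (by omega)))
  have hsd : (A \ A').card + (A ∩ A').card = k := by
    rw [add_comm, card_inter_add_card_sdiff, hA.1]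
  obtain ⟨d, hd, hdA⟩ : ∃ d ∈ A', d ∉ A := by
    by_contra hc
    push Not at hc
    have h1 : A ∩ A' = A' := inter_eq_right.2 hc
    rw [h1, hA'.1] at hfar
    omega
  obtain ⟨a, haA, haA', ha⟩ := exch v hA.1 hA.2.1 hA'.2.1 hd hdA
  obtain ⟨a', haB, haB', ha'⟩ := exch w hA.1 hA.2.2 hA'.2.2 hd hdA
  -- two different elements
  obtain ⟨x, y, hxy, hx, hx', hy, hy', hGv, hGw⟩ : ∃ x y, x ≠ y ∧ x ∈ A ∧ x ∉ A' ∧ y ∈ A ∧
      y ∉ A' ∧ LinearIndepOn K v ((insert d ((A.erase x).erase y) : Finset E) : Set E) ∧
      LinearIndepOn K w ((insert d ((A.erase x).erase y) : Finset E) : Set E) := by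
    by_cases h : a = a'
    · obtain ⟨y, hy, hya⟩ : ∃ y ∈ A \ A', y ≠ a := by
        have h1 : 1 < (A \ A').card := by omega
        obtain ⟨y, hy, hya⟩ := exists_mem_ne h1 a
        exact ⟨y, hy, hya⟩
      rw [mem_sdiff] at hy
      refine ⟨a, y, hya.symm, haA, haA', hy.1, hy.2, ha.mono ?_, ?_⟩
      · exact coe_subset.2 (insert_subset_insert _ (erase_subset _ _))
      · rw [h]
        exact ha'.mono (coe_subset.2 (insert_subset_insert _ (erase_subset _ _)))
    · refine ⟨a, a', h, haA, haA', haB, haB', ha.mono ?_, ?_⟩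
      · exact coe_subset.2 (insert_subset_insert _ (erase_subset _ _))
      · rw [erase_right_comm]
        exact ha'.mono (coe_subset.2 (insert_subset_insert _ (erase_subset _ _)))
  set G : Finset E := insert d ((A.erase x).erase y) with hG
  have hcard2 : ((A.erase x).erase y).card + 2 = k := by
    have h1 := card_erase_add_one hx
    have h2 := card_erase_add_one (mem_erase.2 ⟨hxy.symm, hy⟩)
    rw [hA.1] at h1
    omega
  have hGcard : G.card + 1 = k := by
    rw [hG, card_insert_of_notMem (fun h => hdA (mem_of_mem_erase (mem_of_mem_erase h)))]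
    omega
  have hinter : A ∩ A' ⊆ (A.erase x).erase y := by
    intro z hz
    rw [mem_inter] at hz
    exact mem_erase.2 ⟨fun h => hy' (h ▸ hz.2), mem_erase.2 ⟨fun h => hx' (h ▸ hz.2), hz.1⟩⟩
  have hCG : C ⊆ G := ((subset_inter hCA hCA').trans hinter).trans (subset_insert _ _)
  -- no common extension
  have hno : ∀ e, v e ∉ Submodule.span K (v '' (G : Set E)) →
      w e ∈ Submodule.span K (w '' (G : Set E)) := by
    intro e he
    by_contra hc
    have heG : e ∉ G := fun h => he (Submodule.subset_span ⟨e, h, rfl⟩)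
    have hB : CB v w (insert e G) := by
      refine ⟨by rw [card_insert_of_notMem heG, hGcard], ?_, ?_⟩
      · rw [coe_insert]
        exact hGv.insert he
      · rw [coe_insert]
        exact hGw.insert hc
    have hCB : C ⊆ insert e G := hCG.trans (subset_insert _ _)
    have h1 : k ≤ (A ∩ insert e G).card + 2 := by
      rw [← hcard2]
      refine Nat.add_le_add_right (card_le_card (subset_inter ?_ ?_)) 2
      · exact (erase_subset _ _).trans (erase_subset _ _)
      · exact (subset_insert _ _).trans (subset_insert _ _)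
    have h2 : Relation.ReflTransGen R (insert e G) A' := by
      by_contra h3
      have h4 := hmax (insert e G, A') ⟨hCB, hCA', hB, hA', h3⟩
      have h5 : insert d (A ∩ A') ⊆ insert e G ∩ A' := by
        intro z hz
        rcases mem_insert.1 hz with rfl | hz
        · exact mem_inter.2 ⟨mem_insert_of_mem (mem_insert_self _ _), hd⟩
        · exact mem_inter.2 ⟨mem_insert_of_mem (mem_insert_of_mem (hinter hz)),
            (mem_inter.1 hz).2⟩
      have h6 := card_le_card h5
      rw [card_insert_of_notMem (fun h => hdA (mem_inter.1 h).1)] at h6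
      simp only at h4
      omega
    exact hne (Relation.ReflTransGen.head (hR A _ hCA hCB hA hB h1) h2)
  refine ⟨univ.filter fun e => e ∉ C ∧ v e ∈ Submodule.span K (v '' (G : Set E)), ?_, ?_, ?_⟩
  · rw [disjoint_left]
    intro e he
    exact (mem_filter.1 he).2.1
  · intro B _ hBZ hB
    obtain ⟨e, he, he'⟩ := exists_notMem_span v (A := B) (G := G) (by rw [hB.1]; omega) hB.2.1
    rcases mem_union.1 (hBZ he) with h | h
    · exact he' (Submodule.subset_span ⟨e, hCG h, rfl⟩)
    · exact he' (mem_filter.1 h).2.2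
  · intro B _ hBZ hB
    obtain ⟨e, he, he'⟩ := exists_notMem_span w (A := B) (G := G) (by rw [hB.1]; omega) hB.2.2
    have h1 : e ∉ C := fun h => he' (Submodule.subset_span ⟨e, hCG h, rfl⟩)
    have h2 : v e ∉ Submodule.span K (v '' (G : Set E)) := by
      intro h
      exact disjoint_left.1 hBZ he (mem_filter.2 ⟨mem_univ _, h1, h⟩)
    exact he' (hno e h2)

/-- **Theorem.** If `∑ v e ⊗ w e = 0` and `|E| = 2 k`, then a common basis `S` and its complement
are joined by common bases, consecutive ones differing in at most two elements. -/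
theorem lin_reach (v w : E → Fin k → K) (hrel : ∀ i j, ∑ x, v x i * w x j = 0)
    (hE : Fintype.card E = 2 * k) (S : Finset E) (hS : CB v w S) :
    Relation.ReflTransGen (fun A B => CB v w A ∧ CB v w B ∧ k ≤ (A ∩ B).card + 2) S Sᶜ := by
  classical
  let F : Finset E → K := fun A => if A.card = k then (H2CB.M v w A).det else 0
  have hF : ∀ A, F A ≠ 0 ↔ CB v w A := by
    intro A
    by_cases h : A.card = k
    · simp only [F, if_pos h]
      rw [H2CB.det_M_ne_zero_iff v w h]
      exact ⟨fun h1 => ⟨h, h1⟩, fun h1 => h1.2⟩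
    · simp only [F, if_neg h]
      exact ⟨fun h1 => absurd rfl h1, fun h1 => absurd h1.1 h⟩
  have h1 := reach k F (fun A hA => ((hF A).1 hA).1) (fun C hC => by
      rw [← H2CB.htot v w hrel hC, sum_filter, sum_filter, ← sum_filter_add_sum_filter_not univ
        (fun A : Finset E => A.card = k)]
      have e1 : ∑ A ∈ univ.filter (fun A : Finset E => ¬ A.card = k),
          (if C ⊆ A then F A else 0) = 0 := by
        refine sum_eq_zero fun A hA => ?_
        have : F A = 0 := if_neg (mem_filter.1 hA).2
        rw [this, ite_self]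
      rw [e1, add_zero]
      have e2 : univ.filter (fun A : Finset E => A.card = k) = univ.powersetCard k := by
        ext A
        simp
      rw [e2]
      refine sum_congr rfl fun A hA => ?_
      have : F A = (H2CB.M v w A).det := if_pos (mem_powersetCard.1 hA).2
      rw [this]) (fun C _ => by
      rcases cut v w C (fun P Q => Adj2 k F P Q ∧ C ⊆ Q)
        (fun A B _ hB hA hB' h => ⟨⟨(hF A).2 hA, (hF B).2 hB', h⟩, hB⟩) with h | ⟨Z, h1, h2, h3⟩
      · exact Or.inl fun A A' h1 h2 h3 h4 => h A A' h1 h2 ((hF A).1 h3) ((hF A').1 h4)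
      · refine Or.inr ⟨Z, h1, fun A ha hb => ?_, fun A ha hb => ?_⟩
        · by_contra hc
          exact h2 A ha hb ((hF A).1 hc)
        · by_contra hc
          exact h3 A ha hb ((hF A).1 hc)) hE S ((hF S).2 hS)
  exact Relation.ReflTransGen.mono (r := Adj2 k F) (fun A B h => ⟨(hF A).1 h.1, (hF B).1 h.2.1, h.2.2⟩) _ _ h1

end Pool.Agent.H41FR2
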