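import Mathlib

/-!
# Component sums for exchanges of at most two elements

`F` is a function on the `k`-subsets of a finite set whose sums over all supersets of a set with
less than `k` elements vanish. Under a covering hypothesis the same holds for every component of
the support in the graph of exchanges of at most two elements.
-/

set_option autoImplicit false

namespace Pool.Agent.H41FR2

open Finset

variable {E : Type*} [Fintype E] [DecidableEq E] {K : Type*} [Field K]

/-- Two sets of the support of `F` which differ in at most two elements. -/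
def Adj2 (k : ℕ) (F : Finset E → K) (A A' : Finset E) : Prop :=
  F A ≠ 0 ∧ F A' ≠ 0 ∧ k ≤ (A ∩ A').card + 2

theorem incl_excl (Z : Finset E) (G : Finset E → K) :
    ∑ A ∈ univ.filter (fun A : Finset E => Disjoint A Z), G A =
      ∑ D ∈ Z.powerset, (-1) ^ D.card * ∑ A ∈ univ.filter (fun A : Finset E => D ⊆ A), G A := by
  classical
  simp_rw [Finset.mul_sum, Finset.sum_filter]
  rw [Finset.sum_comm]
  refine sum_congr rfl fun A _ => ?_
  have h1 : (∑ D ∈ Z.powerset, if D ⊆ A then (-1 : K) ^ D.card * G A else 0) =
      (∑ D ∈ (Z ∩ A).powerset, (-1 : K) ^ D.card) * G A := by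
    rw [Finset.sum_mul, ← Finset.sum_filter]
    refine sum_congr ?_ fun _ _ => rfl
    ext D
    simp only [mem_filter, mem_powerset, subset_inter_iff]
  rw [h1]
  have h2 : (∑ D ∈ (Z ∩ A).powerset, (-1 : K) ^ D.card) = if Z ∩ A = ∅ then 1 else 0 := by
    have h3 := Finset.sum_powerset_neg_one_pow_card (x := Z ∩ A)
    have h4 := congrArg (fun z : ℤ => (z : K)) h3
    push_cast at h4
    exact h4
  rw [h2]
  by_cases h : Disjoint A Z
  · rw [if_pos h, if_pos (by rw [inter_comm]; exact disjoint_iff_inter_eq_empty.1 h), one_mul]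
  · rw [if_neg h, if_neg (fun hc => h (disjoint_iff_inter_eq_empty.2 (by rw [inter_comm]; exact hc))),
      zero_mul]

theorem component_sum (k : ℕ) (F : Finset E → K) (hF0 : ∀ A, F A ≠ 0 → A.card = k)
    (htot : ∀ C : Finset E, C.card < k → ∑ A ∈ univ.filter (fun A => C ⊆ A), F A = 0)
    (hCL : ∀ C : Finset E, C.card + 3 ≤ k →
      (∀ A A', C ⊆ A → C ⊆ A' → F A ≠ 0 → F A' ≠ 0 →
        Relation.ReflTransGen (fun P Q => Adj2 k F P Q ∧ C ⊆ Q) A A') ∨
      ∃ Z : Finset E, Disjoint Z C ∧ (∀ A, C ⊆ A → A ⊆ C ∪ Z → F A = 0) ∧
        ∀ A, C ⊆ A → Disjoint A Z → F A = 0) :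
    ∀ m : ℕ, ∀ C : Finset E, C.card + m = k → 0 < m → ∀ U : Finset E → Prop,
      (∀ A A', U A → C ⊆ A → Adj2 k F A A' → C ⊆ A' → U A') →
      ∑ A ∈ univ.filter (fun A : Finset E => C ⊆ A), (open Classical in if U A then F A else 0) = 0 := by
  classical
  intro m
  induction m using Nat.strong_induction_on with
  | _ m ih =>
    intro C hC hm U hU
    -- the connected case
    have conn : (∀ A A', C ⊆ A → C ⊆ A' → F A ≠ 0 → F A' ≠ 0 →
        Relation.ReflTransGen (fun P Q => Adj2 k F P Q ∧ C ⊆ Q) A A') →
        ∑ A ∈ univ.filter (fun A : Finset E => C ⊆ A), (if U A then F A else 0) = 0 := by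
      intro hc
      by_cases h : ∃ A0, C ⊆ A0 ∧ F A0 ≠ 0 ∧ U A0
      · obtain ⟨A0, h1, h2, h3⟩ := h
        have key : ∀ B, Relation.ReflTransGen (fun P Q => Adj2 k F P Q ∧ C ⊆ Q) A0 B →
            U B ∧ C ⊆ B := by
          intro B hB
          induction hB with
          | refl => exact ⟨h3, h1⟩
          | tail _ hs ih' => exact ⟨hU _ _ ih'.1 ih'.2 hs.1 hs.2, hs.2⟩
        refine Eq.trans (sum_congr rfl fun A hA => ?_) (htot C (by omega))
        simp only [mem_filter, mem_univ, true_and] at hA
        by_cases h0 : F A = 0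
        · simp only [h0, ite_self]
        · exact if_pos (key A (hc A0 A h1 hA h2 h0)).1
      · push Not at h
        refine sum_eq_zero fun A hA => ?_
        simp only [mem_filter, mem_univ, true_and] at hA
        by_cases h0 : F A = 0
        · rw [h0, ite_self]
        · exact if_neg (h A hA h0)
    by_cases hm2 : m ≤ 2
    · apply conn
      intro A A' h1 h2 h3 h4
      refine Relation.ReflTransGen.single ⟨⟨h3, h4, ?_⟩, h2⟩
      have := card_le_card (subset_inter h1 h2)
      omega
    · rcases hCL C (by omega) with h | ⟨Z, hZC, hZ1, hZ2⟩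
      · exact conn h
      · let G : Finset E → K := fun A => if C ⊆ A then (if U A then F A else 0) else 0
        have hG : ∀ A, G A ≠ 0 → C ⊆ A ∧ F A ≠ 0 := by
          intro A hA
          by_cases h1 : C ⊆ A
          · refine ⟨h1, fun h2 => hA ?_⟩
            simp only [G, if_pos h1, h2, ite_self]
          · exact absurd (if_neg h1) hA
        have h1 := incl_excl Z G
        have h2 : ∑ A ∈ univ.filter (fun A : Finset E => Disjoint A Z), G A = 0 := by
          refine sum_eq_zero fun A hA => ?_
          simp only [mem_filter, mem_univ, true_and] at hA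
          by_contra hc
          obtain ⟨h3, h4⟩ := hG A hc
          exact h4 (hZ2 A h3 hA)
        rw [h2] at h1
        have h3 : ∀ D ∈ Z.powerset, D ≠ ∅ →
            (-1 : K) ^ D.card * ∑ A ∈ univ.filter (fun A : Finset E => D ⊆ A), G A = 0 := by
          intro D hD hD0
          rw [mem_powerset] at hD
          have hdisj : Disjoint C D := (hZC.mono_left hD).symm
          have hcd : (C ∪ D).card = C.card + D.card := card_union_of_disjoint hdisj
          have hDpos : 0 < D.card := card_pos.2 (nonempty_iff_ne_empty.2 hD0)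
          have e1 : ∑ A ∈ univ.filter (fun A : Finset E => D ⊆ A), G A =
              ∑ A ∈ univ.filter (fun A : Finset E => C ∪ D ⊆ A), (if U A then F A else 0) := by
            rw [sum_filter, sum_filter]
            refine sum_congr rfl fun A _ => ?_
            by_cases h5 : D ⊆ A
            · by_cases h6 : C ⊆ A
              · rw [if_pos h5, if_pos (union_subset h6 h5)]
                simp only [G, if_pos h6]
              · rw [if_pos h5, if_neg (fun h => h6 (union_subset_left h))]
                simp only [G, if_neg h6]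
            · rw [if_neg h5, if_neg (fun h => h5 (union_subset_right h))]
          rw [e1]
          by_cases hlt : D.card < m
          · rw [ih (m - D.card) (by omega) (C ∪ D) (by omega) (by omega) U
              (fun A A' ha hb hc hd => hU A A' ha (union_subset_left hb) hc (union_subset_left hd)),
              mul_zero]
          · rw [sum_eq_zero, mul_zero]
            intro A hA
            simp only [mem_filter, mem_univ, true_and] at hA
            by_cases h0 : F A = 0
            · rw [h0, ite_self]
            · exfalso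
              have h7 := hF0 A h0
              have h8 : C ∪ D = A := eq_of_subset_of_card_le hA (by omega)
              exact h0 (hZ1 A (h8 ▸ subset_union_left) (h8 ▸ union_subset_union_right hD))
        rw [sum_eq_single_of_mem ∅ (empty_mem_powerset Z) h3] at h1
        simp only [card_empty, pow_zero, one_mul, empty_subset, filter_true] at h1
        rw [sum_filter]
        exact h1.symm

/-- **Frame.** The complement of `S` is reached by exchanges of at most two elements. -/
theorem reach (k : ℕ) (F : Finset E → K) (hF0 : ∀ A, F A ≠ 0 → A.card = k)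
    (htot : ∀ C : Finset E, C.card < k → ∑ A ∈ univ.filter (fun A => C ⊆ A), F A = 0)
    (hCL : ∀ C : Finset E, C.card + 3 ≤ k →
      (∀ A A', C ⊆ A → C ⊆ A' → F A ≠ 0 → F A' ≠ 0 →
        Relation.ReflTransGen (fun P Q => Adj2 k F P Q ∧ C ⊆ Q) A A') ∨
      ∃ Z : Finset E, Disjoint Z C ∧ (∀ A, C ⊆ A → A ⊆ C ∪ Z → F A = 0) ∧
        ∀ A, C ⊆ A → Disjoint A Z → F A = 0)
    (hE : Fintype.card E = 2 * k) (S : Finset E) (hS : F S ≠ 0) :
    Relation.ReflTransGen (Adj2 k F) S Sᶜ := by
  classical
  let U : Finset E → Prop := fun A => Relation.ReflTransGen (Adj2 k F) S A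
  let G : Finset E → K := fun A => if U A then F A else 0
  have hSk := hF0 S hS
  have h1 := incl_excl S G
  have h3 : ∀ D ∈ S.powerset, D ≠ S →
      (-1 : K) ^ D.card * ∑ A ∈ univ.filter (fun A : Finset E => D ⊆ A), G A = 0 := by
    intro D hD hDS
    rw [mem_powerset] at hD
    have hlt : D.card < k := by
      rw [← hSk]
      exact card_lt_card (Finset.ssubset_iff_subset_ne.2 ⟨hD, hDS⟩)
    rw [component_sum k F hF0 htot hCL (k - D.card) D (by omega) (by omega) U
      (fun A A' ha _ hb _ => Relation.ReflTransGen.tail ha hb), mul_zero]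
  rw [sum_eq_single_of_mem S (mem_powerset.2 Subset.rfl) h3] at h1
  have h4 : ∑ A ∈ univ.filter (fun A : Finset E => S ⊆ A), G A = F S := by
    have e1 : G S = F S := if_pos Relation.ReflTransGen.refl
    rw [← e1]
    refine sum_eq_single_of_mem S (by simp) ?_
    intro A hA hAS
    simp only [mem_filter, mem_univ, true_and] at hA
    by_contra hc
    have h5 : F A ≠ 0 := fun h => hc (by simp only [G, h, ite_self])
    exact hAS (eq_of_subset_of_card_le hA (by rw [hF0 A h5, hSk])).symm
  rw [h4] at h1
  have h6 : ∑ A ∈ univ.filter (fun A : Finset E => Disjoint A S), G A ≠ 0 := by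
    rw [h1]
    exact mul_ne_zero (pow_ne_zero _ (neg_ne_zero.2 one_ne_zero)) hS
  obtain ⟨A, hA, hGA⟩ := exists_ne_zero_of_sum_ne_zero h6
  simp only [mem_filter, mem_univ, true_and] at hA
  have hUA : U A := by
    by_contra hc
    exact hGA (if_neg hc)
  have hFA : F A ≠ 0 := fun h => hGA (by simp only [G, h, ite_self])
  have h7 : A = Sᶜ := by
    refine eq_of_subset_of_card_le (fun a ha => ?_) ?_
    · rw [mem_compl]
      exact fun h => disjoint_left.1 hA ha h
    · rw [card_compl, hE, hSk, hF0 A hFA]
      omega
  rw [← h7]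
  exact hUA

end Pool.Agent.H41FR2
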