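import Pool.Agent.H41FR2.Lin
import Pool.Agent.H11SW.Matroid

/-!
# The swap of two bases of a represented matroid by exchanges of at most two elements
-/

set_option autoImplicit false

namespace Pool.Agent.H41FR2

open Finset

/-- The dual vectors. -/
theorem exists_dual {K : Type*} [Field K] {r : ℕ} (E : Fin r ⊕ Fin r → Fin r → K)
    (h1 : LinearIndependent K fun i : Fin r => E (Sum.inl i))
    (h2 : LinearIndependent K fun i : Fin r => E (Sum.inr i)) :
    ∃ w : Fin r ⊕ Fin r → Fin r → K, (∀ i j, ∑ x, E x i * w x j = 0) ∧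
      (LinearIndependent K fun i : Fin r => w (Sum.inl i)) ∧
      ∀ A : Finset (Fin r ⊕ Fin r), A.card = r →
        LinearIndepOn K w (A : Set (Fin r ⊕ Fin r)) →
        LinearIndepOn K E ((Aᶜ : Finset (Fin r ⊕ Fin r)) : Set (Fin r ⊕ Fin r)) := by
  classical
  let P : Matrix (Fin r) (Fin r) K := Matrix.of fun i => E (Sum.inl i)
  let Q : Matrix (Fin r) (Fin r) K := Matrix.of fun i => E (Sum.inr i)
  have hP : IsUnit P := Matrix.linearIndependent_rows_iff_isUnit.1 h1
  have hQ : IsUnit Q := Matrix.linearIndependent_rows_iff_isUnit.1 h2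
  have hPt : IsUnit P.transpose.det := by
    rw [Matrix.det_transpose]
    exact (Matrix.isUnit_iff_isUnit_det _).1 hP
  have hQt : IsUnit Q.transpose.det := by
    rw [Matrix.det_transpose]
    exact (Matrix.isUnit_iff_isUnit_det _).1 hQ
  let W : Matrix (Fin r) (Fin r) K := P.transpose⁻¹ * Q.transpose
  have hPW : P.transpose * W = Q.transpose := by
    change P.transpose * (P.transpose⁻¹ * Q.transpose) = Q.transpose
    rw [← Matrix.mul_assoc, Matrix.mul_nonsing_inv _ hPt, Matrix.one_mul]
  have hW : IsUnit W := by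
    refine IsUnit.mul ?_ ((Matrix.isUnit_iff_isUnit_det _).2 hQt)
    rw [Matrix.isUnit_nonsing_inv_iff]
    exact (Matrix.isUnit_iff_isUnit_det _).2 hPt
  let w : Fin r ⊕ Fin r → Fin r → K :=
    Sum.elim (fun i => W i) (fun i => fun j => -((1 : Matrix (Fin r) (Fin r) K) i j))
  refine ⟨w, ?_, ?_, ?_⟩
  · intro i j
    rw [Fintype.sum_sum_type]
    have e1 : ∑ x : Fin r, E (Sum.inl x) i * w (Sum.inl x) j = (P.transpose * W) i j := by
      rw [Matrix.mul_apply]
      rfl
    have e2 : ∑ x : Fin r, E (Sum.inr x) i * w (Sum.inr x) j = -(Q.transpose i j) := by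
      have : ∀ x : Fin r, E (Sum.inr x) i * w (Sum.inr x) j =
          if x = j then -(E (Sum.inr x) i) else 0 := by
        intro x
        by_cases h : x = j
        · subst h
          simp [w]
        · simp [w, h]
      rw [Finset.sum_congr rfl fun x _ => this x, Finset.sum_ite_eq' univ j]
      simp [Q]
    rw [e1, e2, hPW, add_neg_cancel]
  · exact Matrix.linearIndependent_rows_iff_isUnit.2 hW
  · intro A hA hwA
    rw [linearIndepOn_finset_iff]
    intro c hc
    -- extend `c` by zero
    let c' : Fin r ⊕ Fin r → K := fun x => if x ∈ A then 0 else c x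
    have hc' : ∀ i, ∑ x, c' x * E x i = 0 := by
      intro i
      have h3 := congrFun hc i
      rw [Finset.sum_apply] at h3
      simp only [Pi.smul_apply, smul_eq_mul, Pi.zero_apply] at h3
      rw [← h3, ← Finset.sum_add_sum_compl A]
      rw [Finset.sum_eq_zero (s := A) fun x hx => by simp [c', hx], zero_add]
      refine Finset.sum_congr rfl fun x hx => ?_
      have : x ∉ A := Finset.mem_compl.1 hx
      simp [c', this]
    -- the coefficients are given by the rows of `w`
    let c1 : Fin r → K := fun i => c' (Sum.inl i)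
    let c2 : Fin r → K := fun i => c' (Sum.inr i)
    have h3 : P.transpose.mulVec c1 + Q.transpose.mulVec c2 = 0 := by
      funext i
      have h4 := hc' i
      rw [Fintype.sum_sum_type] at h4
      simp only [Pi.add_apply, Matrix.mulVec, dotProduct, Matrix.transpose_apply, Pi.zero_apply]
      rw [← h4]
      congr 1
      · exact Finset.sum_congr rfl fun x _ => mul_comm _ _
      · exact Finset.sum_congr rfl fun x _ => mul_comm _ _
    have h4 : c1 = -(W.mulVec c2) := by
      have h5 : P.transpose.mulVec (c1 + W.mulVec c2) = 0 := by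
        rw [Matrix.mulVec_add, Matrix.mulVec_mulVec, hPW, h3]
      have h6 := Matrix.eq_zero_of_mulVec_eq_zero hPt.ne_zero h5
      exact eq_neg_of_add_eq_zero_left h6
    have h5 : ∀ x, c' x = -(∑ j, w x j * c2 j) := by
      rintro (i | i)
      · have := congrFun h4 i
        simpa [Matrix.mulVec, dotProduct, w, c1] using this
      · simp [w, c2, Matrix.one_apply]
    have h6 : c2 = 0 := by
      have e : Fintype.card A = r := by simpa using hA
      let f : Fin r ≃ A := (Fintype.equivFinOfCardEq e).symm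
      have h7 : LinearIndependent K (fun i : Fin r => w (f i)) := by
        have h8 : LinearIndependent K (fun x : (A : Set (Fin r ⊕ Fin r)) => w x) := hwA
        exact h8.comp (fun i => (⟨f i, (f i).2⟩ : (A : Set (Fin r ⊕ Fin r))))
          (fun i j hij => f.injective (Subtype.ext (congrArg Subtype.val hij)))
      let N : Matrix (Fin r) (Fin r) K := Matrix.of fun i => w (f i)
      have hN : IsUnit N := Matrix.linearIndependent_rows_iff_isUnit.1 h7
      have h9 : N.mulVec c2 = 0 := by
        funext i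
        have h10 := h5 (f i)
        have h11 : c' (f i) = 0 := if_pos (f i).2
        rw [h11] at h10
        have h12 := neg_eq_zero.1 h10.symm
        simpa [Matrix.mulVec, dotProduct, N] using h12
      exact Matrix.eq_zero_of_mulVec_eq_zero ((Matrix.isUnit_iff_isUnit_det _).1 hN).ne_zero h9
    intro x hx
    have h7 : c' x = 0 := by
      rw [h5 x, h6]
      simp
    have h8 : x ∉ A := Finset.mem_compl.1 hx
    simpa [c', h8] using h7

/-- The pair `Q` arises from the pair `P` by an exchange of at most two elements. -/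
def TwoExchange {α : Type*} (M : Matroid α) (P Q : Set α × Set α) : Prop :=
  (∃ X ⊆ P.1, ∃ Y ⊆ P.2, X.encard = Y.encard ∧ X.encard ≤ 2 ∧
    Q.1 = (P.1 \ X) ∪ Y ∧ Q.2 = (P.2 \ Y) ∪ X) ∧ M.IsBase Q.1 ∧ M.IsBase Q.2

theorem two_swap {α K V : Type*} [Field K] [AddCommGroup V] [Module K V]
    (M : Matroid α) (φ : α → V) (hφ : ∀ I ⊆ M.E, M.Indep I ↔ LinearIndepOn K φ I)
    {B B' : Set α} (hB : M.IsBase B) (hB' : M.IsBase B') (hfin : B.Finite) :
    Relation.ReflTransGen (TwoExchange M) (B, B') (B', B) := by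
  classical
  set r := B.ncard with hr
  have hfin' : B'.Finite := by
    rw [← Set.encard_lt_top_iff, hB'.encard_eq_encard_of_isBase hB, Set.encard_lt_top_iff]
    exact hfin
  have hr' : B'.ncard = r := hB'.ncard_eq_ncard_of_isBase hB
  obtain ⟨b, hb, hbr⟩ : ∃ b : Fin r → α, Function.Injective b ∧ Set.range b = B := by
    have : Finite B := hfin
    let e : Fin r ≃ B := (Finite.equivFinOfCardEq (Nat.card_coe_set_eq B)).symm
    exact ⟨fun i => (e i : α), Subtype.val_injective.comp e.injective, by
      rw [show (fun i => (e i : α)) = Subtype.val ∘ e from rfl, Set.range_comp, e.range_eq_univ,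
        Set.image_univ, Subtype.range_coe]⟩
  obtain ⟨b', hb', hbr'⟩ : ∃ b' : Fin r → α, Function.Injective b' ∧ Set.range b' = B' := by
    have : Finite B' := hfin'
    let e : Fin r ≃ B' := (Finite.equivFinOfCardEq ((Nat.card_coe_set_eq B').trans hr')).symm
    exact ⟨fun i => (e i : α), Subtype.val_injective.comp e.injective, by
      rw [show (fun i => (e i : α)) = Subtype.val ∘ e from rfl, Set.range_comp, e.range_eq_univ,
        Set.image_univ, Subtype.range_coe]⟩
  obtain ⟨E, hE, h1, h2⟩ := H11SW.exists_vectors M φ hφ b b' hb hb' (hbr ▸ hB) (hbr' ▸ hB')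
  obtain ⟨w, hrel, hw1, hw2⟩ := exists_dual E h1 h2
  set g : Fin r ⊕ Fin r → α := Sum.elim b b' with hg
  let S : Finset (Fin r ⊕ Fin r) := univ.map ⟨Sum.inl, Sum.inl_injective⟩
  have hSc : S.card = r := by simp [S]
  have gS : g '' (S : Set (Fin r ⊕ Fin r)) = B := by
    rw [← hbr]
    ext x
    simp [S, hg]
  have gSc : g '' ((Sᶜ : Finset (Fin r ⊕ Fin r)) : Set (Fin r ⊕ Fin r)) = B' := by
    rw [← hbr']
    ext x
    constructor
    · rintro ⟨a, ha, rfl⟩
      rcases a with i | i
      · exfalso
        rw [mem_coe, mem_compl] at ha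
        exact ha (by simp [S])
      · exact ⟨i, rfl⟩
    · rintro ⟨i, rfl⟩
      exact ⟨Sum.inr i, by simp [S], rfl⟩
  have hind : ∀ u : Fin r ⊕ Fin r → Fin r → K, (LinearIndependent K fun i : Fin r => u (Sum.inl i)) →
      LinearIndepOn K u (S : Set (Fin r ⊕ Fin r)) := by
    intro u hu
    have e : (S : Set (Fin r ⊕ Fin r)) = Set.range Sum.inl := by
      ext x
      simp [S]
    rw [e]
    exact (linearIndepOn_range_iff Sum.inl_injective u).2 hu
  have hS : CB E w S := ⟨hSc, hind E h1, hind w hw1⟩
  have hpath := lin_reach E w hrel (by simp [two_mul]) S hS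
  -- transfer
  have good : ∀ A, CB E w A → (M.IsBase (g '' (A : Set (Fin r ⊕ Fin r))) ∧
      Set.InjOn g (A : Set (Fin r ⊕ Fin r))) ∧
      (M.IsBase (g '' ((Aᶜ : Finset (Fin r ⊕ Fin r)) : Set (Fin r ⊕ Fin r))) ∧
      Set.InjOn g ((Aᶜ : Finset (Fin r ⊕ Fin r)) : Set (Fin r ⊕ Fin r))) := by
    intro A hA
    refine ⟨hE A hA.1 hA.2.1, hE Aᶜ ?_ (hw2 A hA.1 hA.2.2)⟩
    rw [card_compl, hA.1]
    simp
  have key : ∀ A, Relation.ReflTransGen (fun A B => CB E w A ∧ CB E w B ∧
      r ≤ (A ∩ B).card + 2) S A → Relation.ReflTransGen (TwoExchange M)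
        (g '' (S : Set (Fin r ⊕ Fin r)),
          g '' ((Sᶜ : Finset (Fin r ⊕ Fin r)) : Set (Fin r ⊕ Fin r)))
        (g '' (A : Set (Fin r ⊕ Fin r)),
          g '' ((Aᶜ : Finset (Fin r ⊕ Fin r)) : Set (Fin r ⊕ Fin r))) := by
    intro A hA
    induction hA with
    | refl => exact Relation.ReflTransGen.refl
    | @tail A A' _ hs ih =>
      refine ih.tail ?_
      obtain ⟨hA, hA', hcard⟩ := hs
      obtain ⟨⟨-, i1⟩, ⟨-, i2⟩⟩ := good A hA
      obtain ⟨⟨b1, i3⟩, ⟨b2, i4⟩⟩ := good A' hA'
      refine ⟨⟨g '' ((A \ A' : Finset (Fin r ⊕ Fin r)) : Set (Fin r ⊕ Fin r)), ?_,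
        g '' ((A' \ A : Finset (Fin r ⊕ Fin r)) : Set (Fin r ⊕ Fin r)), ?_, ?_, ?_, ?_, ?_⟩,
        b1, b2⟩
      · exact Set.image_mono (coe_subset.2 sdiff_subset)
      · refine Set.image_mono (coe_subset.2 ?_)
        intro x hx
        exact mem_compl.2 (mem_sdiff.1 hx).2
      · have e1 : (g '' ((A \ A' : Finset (Fin r ⊕ Fin r)) : Set (Fin r ⊕ Fin r))).encard =
            ((A \ A').card : ℕ∞) := by
          rw [Set.InjOn.encard_image (i1.mono (coe_subset.2 sdiff_subset)), Set.encard_coe_eq_coe_finsetCard]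
        have e2 : (g '' ((A' \ A : Finset (Fin r ⊕ Fin r)) : Set (Fin r ⊕ Fin r))).encard =
            ((A' \ A).card : ℕ∞) := by
          rw [Set.InjOn.encard_image (i3.mono (coe_subset.2 sdiff_subset)), Set.encard_coe_eq_coe_finsetCard]
        rw [e1, e2]
        have k1 := card_inter_add_card_sdiff A A'
        have k2 := card_inter_add_card_sdiff A' A
        rw [inter_comm A' A] at k2
        rw [hA.1] at k1
        rw [hA'.1] at k2
        congr 1
        omega
      · rw [Set.InjOn.encard_image (i1.mono (coe_subset.2 sdiff_subset)), Set.encard_coe_eq_coe_finsetCard]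
        have k1 := card_inter_add_card_sdiff A A'
        rw [hA.1] at k1
        have k3 : (A \ A').card ≤ 2 := by omega
        exact_mod_cast k3
      · change g '' (A' : Set (Fin r ⊕ Fin r)) = (g '' (A : Set (Fin r ⊕ Fin r)) \ _) ∪ _
        rw [← i1.image_sdiff_subset (coe_subset.2 sdiff_subset), ← Set.image_union]
        congr 1
        ext x
        simp only [coe_sdiff, Set.mem_union, Set.mem_sdiff, mem_coe]
        tauto
      · change g '' ((A'ᶜ : Finset (Fin r ⊕ Fin r)) : Set (Fin r ⊕ Fin r)) =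
          (g '' ((Aᶜ : Finset (Fin r ⊕ Fin r)) : Set (Fin r ⊕ Fin r)) \ _) ∪ _
        rw [← i2.image_sdiff_subset (coe_subset.2 (fun x hx => mem_compl.2 (mem_sdiff.1 hx).2)),
          ← Set.image_union]
        congr 1
        ext x
        simp only [coe_sdiff, coe_compl, Set.mem_union, Set.mem_sdiff, mem_coe, Set.mem_compl_iff]
        tauto
  have h3 := key Sᶜ hpath
  rw [compl_compl, gS, gSc] at h3
  exact h3

end Pool.Agent.H41FR2
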